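import Pool.Agent.K.MP_dddec0_nt.C0

namespace Pool.Agent.Results.MP_dddec0_nt.OddBounded
open ArithmeticFunction

/-- For both shapes of a prime triplet, `(0, 2, 6)` and `(0, 4, 6)`, there are infinitely many `n`
such that each of the three numbers has an odd number of prime factors, at most fifteen
(counted with multiplicity). -/
theorem result (a : ℕ) (ha : a = 2 ∨ a = 4) :
    {n : ℕ | ∀ m ∈ ({n, n + a, n + 6} : Set ℕ),
      Odd (cardFactors m) ∧ cardFactors m ≤ 15}.Infinite := by
  have key : {n : ℕ | Pool.Agent.P.MP_dddec0_nt.Odd.Good n ∧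
      Pool.Agent.P.MP_dddec0_nt.Odd.Good (n + a) ∧
      Pool.Agent.P.MP_dddec0_nt.Odd.Good (n + 6)}.Infinite := by
    rcases ha with rfl | rfl
    · exact Pool.Agent.P.MP_dddec0_nt.Odd.two
    · exact Pool.Agent.P.MP_dddec0_nt.Odd.four
  refine key.mono fun n hn m hm => ?_
  rcases hm with rfl | rfl | rfl
  · exact hn.1
  · exact hn.2.1
  · exact hn.2.2

end Pool.Agent.Results.MP_dddec0_nt.OddBounded
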