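import Pool.Agent.K.MP_dddec0_nt.C7

namespace Pool.Agent.Results.MP_dddec0_nt.PrimeThreeThree
open ArithmeticFunction

/-- For every admissible triple of shifts there are infinitely many `n` such that, for some
ordering `x, y, z` of the shifts, `n + x` is prime, `n + y` and `n + z` have at most six prime
factors together (with multiplicity), and moreover either `n + y` is prime as well or each of
`n + y`, `n + z` has at most three prime factors. -/
theorem result (a b c : ℕ) (hab : a ≠ b) (hac : a ≠ c) (hbc : b ≠ c)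
    (hadm : ∀ p : ℕ, p.Prime → ∃ r : ℕ, ¬ p ∣ r + a ∧ ¬ p ∣ r + b ∧ ¬ p ∣ r + c) :
    {n : ℕ | ∃ x y z : ℕ, [x, y, z].Perm [a, b, c] ∧ (n + x).Prime ∧
      cardFactors (n + y) + cardFactors (n + z) ≤ 6 ∧
      ((n + y).Prime ∨ (cardFactors (n + y) ≤ 3 ∧ cardFactors (n + z) ≤ 3))}.Infinite := by
  refine (Pool.Agent.P.MP_dddec0_nt.L33.main hab hac hbc hadm).mono fun n hn => ?_
  have key : ∀ {x y z : ℕ}, Pool.Agent.P.MP_dddec0_nt.L33.Pat (n + x) (n + y) (n + z) →
      (n + x).Prime ∧ cardFactors (n + y) + cardFactors (n + z) ≤ 6 ∧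
        ((n + y).Prime ∨ (cardFactors (n + y) ≤ 3 ∧ cardFactors (n + z) ≤ 3)) := by
    rintro x y z ⟨h1, h2 | ⟨h2, h3⟩⟩
    · exact ⟨h1, by omega, Or.inr h2⟩
    · exact ⟨h1, by rw [cardFactors_apply_prime h2]; omega, Or.inl h2⟩
  have s1 : ∀ x y z : ℕ, [y, x, z].Perm [x, y, z] := fun x y z => List.Perm.swap x y [z]
  have s2 : ∀ x y z : ℕ, [x, z, y].Perm [x, y, z] := fun x y z => (List.Perm.swap y z []).cons x
  rcases hn with h | h | h | h | h | h
  · exact ⟨a, b, c, List.Perm.refl _, key h⟩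
  · exact ⟨a, c, b, s2 a b c, key h⟩
  · exact ⟨b, a, c, s1 a b c, key h⟩
  · exact ⟨b, c, a, (s2 b a c).trans (s1 a b c), key h⟩
  · exact ⟨c, a, b, (s1 a c b).trans (s2 a b c), key h⟩
  · exact ⟨c, b, a, ((s2 c a b).trans (s1 a c b)).trans (s2 a b c), key h⟩

end Pool.Agent.Results.MP_dddec0_nt.PrimeThreeThree
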