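import Pool.Agent.K.MP_dddec0_nt.C8
import Pool.Agent.K.MP_dddec0_nt.C9
import Pool.Agent.K.MP_dddec0_nt.C11

/-- With `p_n` the `n`-th prime, `p_(n+2) - p_n ≤ 31476` for infinitely many `n`. -/
theorem Pool.Agent.Results.MP_dddec0_nt.ThreePrimes.result :
    Set.Infinite {n : ℕ | Nat.nth Nat.Prime (n + 2) ≤ Nat.nth Nat.Prime n + 31476} := by
  obtain ⟨H, hH, hadm, hD⟩ := BGap.tuple_exists
  exact BGap.nth_le_of_tuple hH hD
    (BGap.three_primes_of_check BGap.run (by norm_num) (by norm_num) H hH hadm)
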