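import Pool.Agent.K.MP_dddec0_nt.C14

namespace Pool.Agent.Results.MP_dddec0_nt.TwoTwoThree
open ArithmeticFunction

/-- For every admissible triple of shifts there are infinitely many `n` such that each of
`n + a`, `n + b`, `n + c` has at most three prime factors (with multiplicity) and two of them
have at most two. -/
theorem result (a b c : ℕ) (hab : a ≠ b) (hac : a ≠ c) (hbc : b ≠ c)
    (hadm : ∀ p : ℕ, p.Prime → ∃ r : ℕ, ¬ p ∣ r + a ∧ ¬ p ∣ r + b ∧ ¬ p ∣ r + c) :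
    {n : ℕ | cardFactors (n + a) ≤ 3 ∧ cardFactors (n + b) ≤ 3 ∧ cardFactors (n + c) ≤ 3 ∧
      ((cardFactors (n + a) ≤ 2 ∧ cardFactors (n + b) ≤ 2) ∨
        (cardFactors (n + a) ≤ 2 ∧ cardFactors (n + c) ≤ 2) ∨
        (cardFactors (n + b) ≤ 2 ∧ cardFactors (n + c) ≤ 2))}.Infinite := by
  refine (Pool.Agent.P.MP_dddec0_nt.T223.main ![a, b, c] ?_ fun p hp => ?_).mono fun n hn => ?_
  · intro i j h
    fin_cases i <;> fin_cases j <;> simp_all
  · obtain ⟨r, h1, h2, h3⟩ := hadm p hp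
    refine ⟨r, fun i => ?_⟩
    fin_cases i <;> simpa
  · rw [Set.mem_setOf_eq, Fin.sum_univ_three] at hn
    exact Pool.Agent.P.MP_dddec0_nt.T223.of_score hn

end Pool.Agent.Results.MP_dddec0_nt.TwoTwoThree
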